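import Pool.Agent.N478.HS.Sys
import Pool.Agent.N298.HS.StmB

set_option autoImplicit false
set_option linter.unusedSectionVars false

open MeasureTheory Filter Topology Set
open scoped ComplexConjugate InnerProductSpace CompactlySupported ENNReal BoundedContinuousFunction

namespace Pool.Agent.N478.HS

variable {A : Type} [AddCommGroup A]
  {H : Type} [NormedAddCommGroup H] [InnerProductSpace ℂ H] [CompleteSpace H]
variable (S : Sys A H)

/-- the generators -/
noncomputable def Sys.w (a : A) : S.B := ⟨S.W a, S.W_mem a⟩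

theorem Sys.w_add (a b : A) : S.w (a + b) = S.w a * S.w b := Subtype.ext (S.add a b)
theorem Sys.w_zero : S.w 0 = 1 := Subtype.ext S.zero
theorem Sys.w_star (a : A) : star (S.w a) = S.w (-a) := Subtype.ext (S.st a)

theorem Sys.char_w_norm (m : S.Δ) (a : A) : ‖m (S.w a)‖ = 1 := by
  have h1 : m (S.w a) * conj (m (S.w a)) = 1 := by
    rw [← S.char_star, ← map_mul, S.w_star, ← S.w_add, add_neg_cancel, S.w_zero, map_one]
  rw [Complex.mul_conj, Complex.normSq_eq_norm_sq] at h1
  have h2 : ‖m (S.w a)‖ ^ 2 = 1 := by exact_mod_cast h1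
  exact (pow_eq_one_iff_of_nonneg (norm_nonneg _) two_ne_zero).1 h2

/-- the map to functions -/
noncomputable def Sys.F (m : S.Δ) : A → ℂ := fun a => m (S.w a)

theorem Sys.F_cont : Continuous S.F := continuous_pi fun a => S.cont_char _

theorem Sys.L_norm_sq (v : H) (b : S.B) :
    S.L v ⟨fun m => ‖m b‖ ^ 2, ((S.cont_char b).norm.pow 2)⟩ = ‖(b : H →L[ℂ] H) v‖ ^ 2 := by
  have h : S.op (cc ⟨fun m => ‖m b‖ ^ 2, ((S.cont_char b).norm.pow 2)⟩) = star b * b := by
    apply S.ext_char; intro m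
    rw [map_mul, S.char_star, S.char_op, mul_comm, Complex.mul_conj, Complex.normSq_eq_norm_sq]
    rfl
  unfold Sys.L
  rw [h]
  have : ((star b * b : S.B) : H →L[ℂ] H) v = (star (b : H →L[ℂ] H)) ((b : H →L[ℂ] H) v) := rfl
  rw [this, ContinuousLinearMap.star_eq_adjoint, ContinuousLinearMap.adjoint_inner_right,
    inner_self_eq_norm_sq_to_K]
  norm_cast

theorem Sys.conj_mem (T : H ≃ₗᵢ[ℂ] H) (s : A → A) (h : ∀ a v, T (S.W a v) = S.W (s a) (T v))
    (a : S.B) : T.conjStarAlgEquiv (a : H →L[ℂ] H) ∈ S.B := by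
  rw [S.mem_B]
  intro R hR
  have h1 : ∀ x, S.W x * T.symm.conjStarAlgEquiv R = T.symm.conjStarAlgEquiv R * S.W x := by
    intro x
    ext v
    show S.W x (T.symm (R (T v))) = T.symm (R (T (S.W x v)))
    rw [h]
    apply T.injective
    rw [h, T.apply_symm_apply, T.apply_symm_apply]
    exact DFunLike.congr_fun (hR (s x)) (T v)
  have h2 := S.mem_B.1 a.2 _ h1
  ext v
  show R (T ((a : H →L[ℂ] H) (T.symm v))) = T ((a : H →L[ℂ] H) (T.symm (R v)))
  have h4 : T.symm (R (T ((a : H →L[ℂ] H) (T.symm v)))) =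
      (a : H →L[ℂ] H) (T.symm (R (T (T.symm v)))) := DFunLike.congr_fun h2 (T.symm v)
  rw [T.apply_symm_apply] at h4
  rw [← h4, T.apply_symm_apply]

/-- the induced automorphism -/
noncomputable def Sys.al (T : H ≃ₗᵢ[ℂ] H) (s : A → A)
    (h : ∀ a v, T (S.W a v) = S.W (s a) (T v)) : S.B →⋆ₐ[ℂ] S.B :=
  StarAlgHom.codRestrict
    ((T.conjStarAlgEquiv : (H →L[ℂ] H) →⋆ₐ[ℂ] (H →L[ℂ] H)).comp S.B.subtype) S.B
    (fun a => S.conj_mem T s h a)

theorem Sys.al_apply (T : H ≃ₗᵢ[ℂ] H) (s : A → A)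
    (h : ∀ a v, T (S.W a v) = S.W (s a) (T v)) (b : S.B) (v : H) :
    (S.al T s h b : H →L[ℂ] H) v = T ((b : H →L[ℂ] H) (T.symm v)) := rfl

theorem Sys.al_w (T : H ≃ₗᵢ[ℂ] H) (s : A → A)
    (h : ∀ a v, T (S.W a v) = S.W (s a) (T v)) (a : A) : S.al T s h (S.w a) = S.w (s a) := by
  apply Subtype.ext
  ext v
  rw [S.al_apply]
  show T (S.W a (T.symm v)) = S.W (s a) v
  rw [h, T.apply_symm_apply]

/-- the induced map on characters -/
noncomputable def Sys.hh (T : H ≃ₗᵢ[ℂ] H) (s : A → A)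
    (h : ∀ a v, T (S.W a v) = S.W (s a) (T v)) : C(S.Δ, S.Δ) :=
  WeakDual.CharacterSpace.compContinuousMap (S.al T s h)

theorem Sys.hh_apply (T : H ≃ₗᵢ[ℂ] H) (s : A → A)
    (h : ∀ a v, T (S.W a v) = S.W (s a) (T v)) (m : S.Δ) (b : S.B) :
    (S.hh T s h m) b = m (S.al T s h b) := rfl

theorem Sys.F_hh (T : H ≃ₗᵢ[ℂ] H) (s : A → A)
    (h : ∀ a v, T (S.W a v) = S.W (s a) (T v)) (m : S.Δ) :
    S.F (S.hh T s h m) = fun a => S.F m (s a) := by
  ext a
  unfold Sys.F
  rw [S.hh_apply, S.al_w]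

theorem Sys.L_symm (T : H ≃ₗᵢ[ℂ] H) (s : A → A)
    (h : ∀ a v, T (S.W a v) = S.W (s a) (T v)) (v : H) (f : C(S.Δ, ℝ)) :
    S.L (T.symm v) f = S.L v (f.comp (S.hh T s h)) := by
  have h1 : S.al T s h (S.op (cc f)) = S.op (cc (f.comp (S.hh T s h))) := by
    apply S.ext_char; intro m
    rw [← S.hh_apply, S.char_op, S.char_op]
    rfl
  unfold Sys.L
  rw [← h1, S.al_apply]
  congr 1
  rw [← T.inner_map_map (T.symm v), T.apply_symm_apply]

theorem Sys.map_symm [Countable A] (T : H ≃ₗᵢ[ℂ] H) (s : A → A)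
    (h : ∀ a v, T (S.W a v) = S.W (s a) (T v)) (v : H) :
    (S.m (T.symm v)).map S.F = ((S.m v).map S.F).map (fun χ : A → ℂ => fun a => χ (s a)) := by
  have hc : Continuous (fun χ : A → ℂ => fun a => χ (s a)) := by fun_prop
  have hF : Measurable S.F := S.F_cont.measurable
  haveI : IsFiniteMeasure ((S.m (T.symm v)).map S.F) := Measure.isFiniteMeasure_map _ _
  haveI : IsFiniteMeasure ((S.m v).map S.F) := Measure.isFiniteMeasure_map _ _
  haveI : IsFiniteMeasure (((S.m v).map S.F).map (fun χ : A → ℂ => fun a => χ (s a))) :=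
    Measure.isFiniteMeasure_map _ _
  letI : PseudoMetricSpace (A → ℂ) := TopologicalSpace.pseudoMetrizableSpacePseudoMetric (A → ℂ)
  refine ext_of_forall_integral_eq_of_IsFiniteMeasure fun g => ?_
  rw [integral_map hF.aemeasurable g.continuous.aestronglyMeasurable,
    integral_map hc.measurable.aemeasurable g.continuous.aestronglyMeasurable,
    integral_map (f := fun χ : A → ℂ => g (fun a => χ (s a))) hF.aemeasurable
      (g.continuous.comp hc).aestronglyMeasurable]
  have h1 := S.integral_m (T.symm v) ⟨fun m => g (S.F m), g.continuous.comp S.F_cont⟩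
  have h2 := S.integral_m v ⟨fun m => g (fun a => S.F m (s a)),
    g.continuous.comp (hc.comp S.F_cont)⟩
  have h3 : (ContinuousMap.mk (fun m => g (S.F m)) (g.continuous.comp S.F_cont)).comp
      (S.hh T s h) = ⟨fun m => g (fun a => S.F m (s a)),
    g.continuous.comp (hc.comp S.F_cont)⟩ := by
    ext m
    show g (S.F (S.hh T s h m)) = _
    rw [S.F_hh]
    rfl
  rw [S.L_symm T s h, h3, ← h2] at h1
  exact h1

theorem t_meas : Pool.Agent.N298.HS.S_MEAS := by
  intro A _ _ H _ _ _ U hU ξ hξ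
  have hU0 : U 0 = 1 := by
    have := hU 0 0
    rw [add_zero] at this
    exact (left_eq_mul.1 this)
  have hUn : ∀ a, U (-a) = (U a)⁻¹ := by
    intro a
    apply eq_inv_of_mul_eq_one_left
    rw [← hU, neg_add_cancel, hU0]
  let S : Sys A H :=
    { W := fun a => ((U a).toContinuousLinearEquiv : H →L[ℂ] H)
      add := fun a b => by
        ext v
        show U (a + b) v = U a (U b v)
        rw [hU]; rfl
      zero := by
        ext v
        show U 0 v = v
        rw [hU0]; rfl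
      st := fun a => by
        have h1 := (U a).star_eq_symm
        ext v
        rw [h1]
        show (U a).symm v = U (-a) v
        rw [hUn]; rfl }
  have hF : Measurable S.F := S.F_cont.measurable
  haveI := S.isProb_m ξ hξ
  haveI : IsProbabilityMeasure ((S.m ξ).map S.F) := Measure.isProbabilityMeasure_map hF.aemeasurable
  refine ⟨(S.m ξ).map S.F, inferInstance, ?_, ?_, ?_⟩
  · have hm : MeasurableSet {χ : A → ℂ | (∀ a, ‖χ a‖ = 1) ∧ ∀ a b, χ (a + b) = χ a * χ b} := by
      apply IsClosed.measurableSet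
      simp only [ofPred_and, ofPred_forall]
      exact (isClosed_iInter fun a => isClosed_eq (by fun_prop) (by fun_prop)).inter
        (isClosed_iInter fun a => isClosed_iInter fun b =>
          isClosed_eq (by fun_prop) (by fun_prop))
    rw [ae_map_iff hF.aemeasurable hm]
    refine Eventually.of_forall fun m => ⟨fun a => S.char_w_norm m a, fun a b => ?_⟩
    show m (S.w (a + b)) = m (S.w a) * m (S.w b)
    rw [S.w_add, map_mul]
  · intro a
    have hc : Continuous (fun χ : A → ℂ => ‖χ a - 1‖ ^ 2) := by fun_prop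
    rw [integral_map hF.aemeasurable hc.aestronglyMeasurable]
    have h1 := S.integral_m ξ ⟨fun m => ‖m (S.w a - 1)‖ ^ 2,
      ((S.cont_char (S.w a - 1)).norm.pow 2)⟩
    rw [S.L_norm_sq] at h1
    have h2 : ((S.w a - 1 : S.B) : H →L[ℂ] H) ξ = U a ξ - ξ := rfl
    rw [h2] at h1
    rw [← h1]
    congr 1
    ext m
    show ‖m (S.w a - 1)‖ ^ 2 = ‖m (S.w a) - 1‖ ^ 2
    rw [map_sub, map_one]
  · intro T s hT E hE
    have h : ∀ a v, T (S.W a v) = S.W (s a) (T v) := fun a v =>
      DFunLike.congr_fun (hT a) v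
    have hc : Continuous (fun χ : A → ℂ => fun a => χ (s a)) := by fun_prop
    have h1 : ((S.m ξ).map S.F).real {χ | (fun a => χ (s a)) ∈ E} =
        ((S.m (T.symm ξ)).map S.F).real E := by
      rw [S.map_symm T s h ξ, map_measureReal_apply hc.measurable hE]
      rfl
    rw [h1, map_measureReal_apply hF hE, map_measureReal_apply hF hE]
    have hη : ‖T.symm ξ‖ = 1 := by rw [T.symm.norm_map, hξ]
    have hd : ‖T.symm ξ - ξ‖ = ‖T ξ - ξ‖ := by
      rw [← T.norm_map (T.symm ξ - ξ), map_sub, T.apply_symm_apply, norm_sub_rev]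
    have h2 := S.m_sub_le ξ (T.symm ξ) hξ hη _ (hF hE)
    have h3 := S.m_sub_le (T.symm ξ) ξ hη hξ _ (hF hE)
    rw [norm_sub_rev, hd] at h2
    rw [hd] at h3
    rw [abs_le]
    constructor <;> linarith

end Pool.Agent.N478.HS
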