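import Mathlib

set_option autoImplicit false
set_option linter.unusedSectionVars false

open MeasureTheory Filter Topology Set
open scoped ComplexConjugate InnerProductSpace CompactlySupported ENNReal

namespace Pool.Agent.N478.HS

variable {A : Type} [AddCommGroup A]
  {H : Type} [NormedAddCommGroup H] [InnerProductSpace ℂ H] [CompleteSpace H]

/-- a system of commuting unitaries -/
structure Sys (A : Type) [AddCommGroup A] (H : Type) [NormedAddCommGroup H]
    [InnerProductSpace ℂ H] [CompleteSpace H] where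
  W : A → H →L[ℂ] H
  add : ∀ a b, W (a + b) = W a * W b
  zero : W 0 = 1
  st : ∀ a, star (W a) = W (-a)

variable (S : Sys A H)

/-- the double commutant -/
noncomputable def Sys.B : StarSubalgebra ℂ (H →L[ℂ] H) :=
  StarSubalgebra.centralizer ℂ (Set.centralizer (Set.range S.W))

theorem Sys.mem_B {a : H →L[ℂ] H} :
    a ∈ S.B ↔ ∀ R : H →L[ℂ] H, (∀ x, S.W x * R = R * S.W x) → R * a = a * R := by
  rw [Sys.B, StarSubalgebra.mem_centralizer_iff]
  constructor
  · intro h R hR
    exact (h R (by rw [Set.mem_centralizer_iff]; rintro _ ⟨x, rfl⟩; exact hR x)).1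
  · intro h R hR
    rw [Set.mem_centralizer_iff] at hR
    have hR' : ∀ x, S.W x * R = R * S.W x := fun x => hR _ ⟨x, rfl⟩
    refine ⟨h R hR', h (star R) fun x => ?_⟩
    have := congrArg star (hR' (-x))
    rw [star_mul, star_mul, S.st, neg_neg] at this
    exact this.symm

theorem Sys.isClosed_B : IsClosed (S.B : Set (H →L[ℂ] H)) := by
  rw [Sys.B, StarSubalgebra.coe_centralizer]
  exact Set.isClosed_centralizer _

theorem Sys.W_mem (x : A) : S.W x ∈ S.B := by
  rw [S.mem_B]; intro R hR; exact (hR x).symm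

theorem Sys.B_comm {a b : H →L[ℂ] H} (ha : a ∈ S.B) (hb : b ∈ S.B) : a * b = b * a := by
  have h1 : ∀ x, S.W x * b = b * S.W x := by
    intro x
    apply S.mem_B.1 hb
    intro y
    rw [← S.add, ← S.add, add_comm]
  exact (S.mem_B.1 ha b h1).symm

noncomputable instance Sys.instCS : CStarAlgebra S.B :=
  @StarSubalgebra.cstarAlgebra _ _ _ _ _ _ _ S.B S.isClosed_B

noncomputable instance Sys.instCCS : CommCStarAlgebra S.B :=
  { S.instCS with
    mul_comm := fun a b => Subtype.ext (S.B_comm a.2 b.2) }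

abbrev Sys.Δ := WeakDual.characterSpace ℂ S.B

noncomputable instance : MeasurableSpace S.Δ := borel _
instance : BorelSpace S.Δ := ⟨rfl⟩

/-- the operator of a function -/
noncomputable def Sys.op (f : C(S.Δ, ℂ)) : S.B := (gelfandStarTransform S.B).symm f

theorem Sys.char_op (f : C(S.Δ, ℂ)) (m : S.Δ) : m (S.op f) = f m := by
  have : (gelfandStarTransform S.B) ((gelfandStarTransform S.B).symm f) m = f m := by
    rw [StarAlgEquiv.apply_symm_apply]
  exact this

theorem Sys.ext_char {a b : S.B} (h : ∀ m : S.Δ, m a = m b) : a = b := by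
  apply (gelfandStarTransform S.B).injective
  ext m
  exact h m

theorem Sys.cont_char (a : S.B) : Continuous fun m : S.Δ => m a :=
  map_continuous (WeakDual.gelfandTransform ℂ S.B a)

theorem Sys.char_star (m : S.Δ) (a : S.B) : m (star a) = conj (m a) :=
  DFunLike.congr_fun (gelfandTransform_map_star (A := S.B) a) m

/-- complexification -/
noncomputable def cc {X : Type} [TopologicalSpace X] (f : C(X, ℝ)) : C(X, ℂ) :=
  ⟨fun m => (f m : ℂ), Complex.continuous_ofReal.comp f.continuous⟩

/-- the functional -/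
noncomputable def Sys.L (v : H) (f : C(S.Δ, ℝ)) : ℝ :=
  (⟪v, (S.op (cc f) : H →L[ℂ] H) v⟫_ℂ).re

theorem Sys.L_add (v : H) (f g : C(S.Δ, ℝ)) : S.L v (f + g) = S.L v f + S.L v g := by
  have h : S.op (cc (f + g)) = S.op (cc f) + S.op (cc g) := by
    apply S.ext_char; intro m
    rw [map_add, S.char_op, S.char_op, S.char_op]
    simp [cc]
  unfold Sys.L
  rw [h]
  have : ((S.op (cc f) + S.op (cc g) : S.B) : H →L[ℂ] H) v =
    (S.op (cc f) : H →L[ℂ] H) v + (S.op (cc g) : H →L[ℂ] H) v := rfl
  rw [this, inner_add_right, Complex.add_re]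

theorem Sys.L_smul (v : H) (c : ℝ) (f : C(S.Δ, ℝ)) : S.L v (c • f) = c * S.L v f := by
  have h : S.op (cc (c • f)) = (c : ℂ) • S.op (cc f) := by
    apply S.ext_char; intro m
    rw [map_smul, S.char_op, S.char_op]
    simp [cc]
  unfold Sys.L
  rw [h]
  have : (((c : ℂ) • S.op (cc f) : S.B) : H →L[ℂ] H) v =
    (c : ℂ) • (S.op (cc f) : H →L[ℂ] H) v := rfl
  rw [this, inner_smul_right]
  simp

/-- the square root operator -/
noncomputable def Sys.sq (f : C(S.Δ, ℝ)) : S.B :=
  S.op (cc ⟨fun m => Real.sqrt (f m), f.continuous.sqrt⟩)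

theorem Sys.L_sq (v : H) (f : C(S.Δ, ℝ)) (hf : ∀ m, 0 ≤ f m) :
    S.L v f = ‖(S.sq f : H →L[ℂ] H) v‖ ^ 2 := by
  have h : S.op (cc f) = star (S.sq f) * S.sq f := by
    apply S.ext_char; intro m
    rw [map_mul, S.char_star, Sys.sq, S.char_op, S.char_op]
    simp only [cc, ContinuousMap.coe_mk, Complex.conj_ofReal, ← Complex.ofReal_mul,
      Real.mul_self_sqrt (hf m)]
  unfold Sys.L
  rw [h]
  have : ((star (S.sq f) * S.sq f : S.B) : H →L[ℂ] H) v =
    (star (S.sq f : H →L[ℂ] H)) ((S.sq f : H →L[ℂ] H) v) := rfl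
  rw [this, ContinuousLinearMap.star_eq_adjoint, ContinuousLinearMap.adjoint_inner_right,
    inner_self_eq_norm_sq_to_K]
  norm_cast

theorem Sys.L_nonneg (v : H) (f : C(S.Δ, ℝ)) (hf : ∀ m, 0 ≤ f m) : 0 ≤ S.L v f := by
  rw [S.L_sq v f hf]; positivity

theorem Sys.L_one (v : H) : S.L v 1 = ‖v‖ ^ 2 := by
  have h : S.op (cc 1) = 1 := by
    apply S.ext_char; intro m
    rw [map_one, S.char_op]
    simp [cc]
  unfold Sys.L
  rw [h]
  have : ((1 : S.B) : H →L[ℂ] H) v = v := rfl
  rw [this, inner_self_eq_norm_sq_to_K]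
  norm_cast

theorem Sys.L_le (v : H) (f g : C(S.Δ, ℝ)) (hf : ∀ m, f m ≤ g m) : S.L v f ≤ S.L v g := by
  have h1 := S.L_nonneg v (g - f) (fun m => by simpa using hf m)
  have h2 := S.L_add v (g - f) f
  rw [sub_add_cancel] at h2
  linarith

theorem Sys.L_sub_le (v w : H) (hv : ‖v‖ = 1) (hw : ‖w‖ = 1) (f : C(S.Δ, ℝ))
    (h0 : ∀ m, 0 ≤ f m) (h1 : ∀ m, f m ≤ 1) : S.L v f - S.L w f ≤ 2 * ‖v - w‖ := by
  have hb : ∀ u : H, ‖(S.sq f : H →L[ℂ] H) u‖ ≤ ‖u‖ := by
    intro u
    have h2 : ‖(S.sq f : H →L[ℂ] H) u‖ ^ 2 ≤ ‖u‖ ^ 2 := by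
      rw [← S.L_sq u f h0, ← S.L_one u]
      exact S.L_le u f 1 (fun m => by simpa using h1 m)
    exact (pow_le_pow_iff_left₀ (norm_nonneg _) (norm_nonneg _) two_ne_zero).1 h2
  rw [S.L_sq v f h0, S.L_sq w f h0]
  have h3 : ‖(S.sq f : H →L[ℂ] H) v‖ - ‖(S.sq f : H →L[ℂ] H) w‖ ≤ ‖v - w‖ := by
    refine (norm_sub_norm_le _ _).trans ?_
    rw [← map_sub]
    exact hb _
  have h4 := hb v
  have h5 := hb w
  rw [hv] at h4
  rw [hw] at h5
  have h6 : (‖(S.sq f : H →L[ℂ] H) v‖ - ‖(S.sq f : H →L[ℂ] H) w‖) *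
      (‖(S.sq f : H →L[ℂ] H) v‖ + ‖(S.sq f : H →L[ℂ] H) w‖) ≤ ‖v - w‖ * 2 :=
    mul_le_mul h3 (by linarith) (by positivity) (norm_nonneg _)
  nlinarith [h6]

/-- as positive linear functional -/
noncomputable def Sys.LamL (v : H) : C_c(S.Δ, ℝ) →ₚ[ℝ] ℝ :=
  PositiveLinearMap.mk₀
    { toFun := fun F => S.L v F.toContinuousMap
      map_add' := fun F F' => by
        have : (F + F').toContinuousMap = F.toContinuousMap + F'.toContinuousMap := by
          ext x; rfl
        rw [this, S.L_add]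
      map_smul' := fun c F => by
        have : (c • F).toContinuousMap = c • F.toContinuousMap := by
          ext x; rfl
        rw [this, S.L_smul]
        rfl }
    (fun F hF => S.L_nonneg v _ (fun m => hF m))

/-- the measure of a vector -/
noncomputable def Sys.m (v : H) : Measure S.Δ := RealRMK.rieszMeasure (S.LamL v)

noncomputable instance (v : H) : IsFiniteMeasure (S.m v) := by
  unfold Sys.m; infer_instance

instance (v : H) : (S.m v).Regular := by
  unfold Sys.m; infer_instance

theorem Sys.integral_m (v : H) (f : C(S.Δ, ℝ)) : ∫ x, f x ∂(S.m v) = S.L v f :=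
  RealRMK.integral_rieszMeasure (S.LamL v)
    ⟨f, HasCompactSupport.of_compactSpace _⟩

theorem Sys.isProb_m (v : H) (hv : ‖v‖ = 1) : IsProbabilityMeasure (S.m v) := by
  have h := S.integral_m v 1
  rw [S.L_one, hv] at h
  simp only [ContinuousMap.one_apply, integral_const, smul_eq_mul, mul_one, one_pow] at h
  refine ⟨?_⟩
  rw [← ENNReal.ofReal_toReal (measure_ne_top (S.m v) univ)]
  rw [show ((S.m v) univ).toReal = (S.m v).real univ from rfl, h, ENNReal.ofReal_one]

theorem Sys.m_sub_le (v w : H) (hv : ‖v‖ = 1) (hw : ‖w‖ = 1) (E : Set S.Δ)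
    (hE : MeasurableSet E) : (S.m v).real E - (S.m w).real E ≤ 2 * ‖v - w‖ := by
  have key : ∀ ε : ℝ, 0 < ε → (S.m v).real E - (S.m w).real E ≤ 2 * ‖v - w‖ + 2 * ε := by
    intro ε hε
    have hε' : ENNReal.ofReal ε ≠ 0 := by simpa using hε
    obtain ⟨K, hKE, hK, hK2⟩ := hE.exists_isCompact_lt_add (μ := S.m v) (measure_ne_top _ _) hε'
    obtain ⟨V, hEV, hV, hV2⟩ := E.exists_isOpen_lt_add (μ := S.m w) (measure_ne_top _ _) hε'
    obtain ⟨f, hf1, -, hf3, hf4⟩ :=
      exists_continuousMap_one_of_isCompact_subset_isOpen hK hV (hKE.trans hEV)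
    have hK3 : (S.m v).real E ≤ (S.m v).real K + ε := by
      have := ENNReal.toReal_mono (ENNReal.add_ne_top.2 ⟨measure_ne_top _ _, ENNReal.ofReal_ne_top⟩)
        hK2.le
      rwa [ENNReal.toReal_add (measure_ne_top _ _) ENNReal.ofReal_ne_top,
        ENNReal.toReal_ofReal hε.le] at this
    have hV3 : (S.m w).real V ≤ (S.m w).real E + ε := by
      have := ENNReal.toReal_mono (ENNReal.add_ne_top.2 ⟨measure_ne_top _ _, ENNReal.ofReal_ne_top⟩)
        hV2.le
      rwa [ENNReal.toReal_add (measure_ne_top _ _) ENNReal.ofReal_ne_top,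
        ENNReal.toReal_ofReal hε.le] at this
    have hint : ∀ u : H, Integrable f (S.m u) := fun u =>
      f.continuous.integrable_of_hasCompactSupport (HasCompactSupport.of_compactSpace _)
    have h1 : (S.m v).real K ≤ S.L v f := by
      rw [← S.integral_m, ← integral_indicator_one hK.measurableSet]
      refine integral_mono_of_nonneg (Eventually.of_forall fun x => ?_) (hint v)
        (Eventually.of_forall fun x => ?_)
      · exact indicator_nonneg (fun _ _ => zero_le_one) x
      · show K.indicator 1 x ≤ f x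
        by_cases hx : x ∈ K
        · rw [indicator_of_mem hx, hf1 hx]
        · rw [indicator_of_notMem hx]; exact (hf4 x).1
    have h2 : S.L w f ≤ (S.m w).real V := by
      rw [← S.integral_m, ← integral_indicator_one hV.measurableSet]
      refine integral_mono_of_nonneg (Eventually.of_forall fun x => (hf4 x).1)
        ((integrable_indicator_iff hV.measurableSet).2 (integrable_const _).integrableOn)
        (Eventually.of_forall fun x => ?_)
      show f x ≤ V.indicator 1 x
      by_cases hx : x ∈ V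
      · rw [indicator_of_mem hx]; exact (hf4 x).2
      · rw [indicator_of_notMem hx]
        rw [image_eq_zero_of_notMem_tsupport (fun h => hx (hf3 h))]
    have h3 := S.L_sub_le v w hv hw f (fun m => (hf4 m).1) (fun m => (hf4 m).2)
    linarith
  refine le_of_forall_pos_le_add fun ε hε => ?_
  have := key (ε / 2) (by positivity)
  linarith

end Pool.Agent.N478.HS
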